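import Pool.Agent.H40.Ggm

set_option autoImplicit false

namespace Pool.Agent.Results.MP_4a7d17_lc.Axiomatization

open Pool.Agent.H40.Ggm

/-- The system `Prov` is sound and complete for general game models. -/
theorem result (N : Type) [Finite N] [Nontrivial N] (a : Fm N) : Prov a ↔ Valid a :=
  ⟨sound, complete⟩

end Pool.Agent.Results.MP_4a7d17_lc.Axiomatization
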